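import Pool.Agent.H.MP_6b630c_al.D
import Pool.Agent.H.MP_98b561_al.A

set_option autoImplicit false

namespace Pool.Agent.H.MP_6b630c_al
open Pointwise Filter

noncomputable def sh (k : ℤ) (f : ℤ →₀ ℤ) : ℤ →₀ ℤ := Finsupp.equivMapDomain (Equiv.addRight k) f

def fn (x : ZwrZ) : ℤ →₀ ℤ := x.left.toAdd
def lev (x : ZwrZ) : ℤ := -x.right.toAdd

theorem fn_mul (x y : ZwrZ) : fn (x * y) = fn x + sh (-lev x) (fn y) := by
  simp only [fn, lev, neg_neg]
  rfl

theorem lev_mul (x y : ZwrZ) : lev (x * y) = lev x + lev y := by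
  simp [lev]
  ring

theorem fn_one : fn 1 = 0 := rfl
theorem lev_one : lev 1 = 0 := rfl

theorem lev_inv (x : ZwrZ) : lev x⁻¹ = -lev x := by
  have := lev_mul x x⁻¹
  rw [mul_inv_cancel, lev_one] at this
  omega

theorem wext {x y : ZwrZ} (h1 : fn x = fn y) (h2 : lev x = lev y) : x = y := by
  apply SemidirectProduct.ext
  · exact h1
  · simp only [lev, neg_inj] at h2
    exact h2

noncomputable def mk (f : ℤ →₀ ℤ) (k : ℤ) : ZwrZ := ⟨Multiplicative.ofAdd f, Multiplicative.ofAdd (-k)⟩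

theorem fn_mk (f : ℤ →₀ ℤ) (k : ℤ) : fn (mk f k) = f := rfl
theorem lev_mk (f : ℤ →₀ ℤ) (k : ℤ) : lev (mk f k) = k := neg_neg k

theorem sh_zero (k : ℤ) : sh k 0 = 0 := Finsupp.equivMapDomain_zero
theorem sh_sh (k l : ℤ) (f : ℤ →₀ ℤ) : sh k (sh l f) = sh (k + l) f := by
  ext i
  simp [sh, -Equiv.addRight_add, add_assoc, add_comm, add_left_comm]
theorem sh0 (f : ℤ →₀ ℤ) : sh 0 f = f := by
  ext i
  simp [sh, -Equiv.addRight_zero]

noncomputable def N (r : ℝ) (f : ℤ →₀ ℤ) : ℝ := f.sum (fun i a => |(a : ℝ)| * r ^ (-i))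

section
variable {r : ℝ} (hr : 2 ≤ r)
include hr

theorem N_eq (f : ℤ →₀ ℤ) (s : Finset ℤ) (hs : f.support ⊆ s) :
    N r f = ∑ i ∈ s, |(f i : ℝ)| * r ^ (-i) :=
  Finsupp.sum_of_support_subset f hs _ (fun _ _ => by simp)

theorem N_add (f g : ℤ →₀ ℤ) : N r (f + g) ≤ N r f + N r g := by
  classical
  rw [N_eq hr (f + g) _ Finsupp.support_add, N_eq hr f (f.support ∪ g.support) Finset.subset_union_left,
    N_eq hr g (f.support ∪ g.support) Finset.subset_union_right, ← Finset.sum_add_distrib]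
  refine Finset.sum_le_sum (fun i _ => ?_)
  rw [← add_mul]
  refine mul_le_mul_of_nonneg_right ?_ (by positivity)
  simp only [Finsupp.coe_add, Pi.add_apply, Int.cast_add]
  exact abs_add_le _ _

theorem N_neg (f : ℤ →₀ ℤ) : N r (-f) = N r f := by
  rw [N_eq hr (-f) f.support (by simp), N_eq hr f f.support le_rfl]
  simp

theorem N_sh (k : ℤ) (f : ℤ →₀ ℤ) : N r (sh k f) = r ^ (-k) * N r f := by
  unfold N sh
  rw [Finsupp.sum_equivMapDomain, Finsupp.mul_sum]
  refine Finsupp.sum_congr (fun i _ => ?_)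
  simp only [Equiv.coe_addRight, neg_add]
  rw [zpow_add₀ (by positivity)]
  ring

omit hr in
theorem N_zero : N r 0 = 0 := by simp [N]

omit hr in
theorem N_single (i a : ℤ) : N r (Finsupp.single i a) = |(a : ℝ)| * r ^ (-i) := by
  simp [N]

theorem pw_mono {a b : ℤ} (h : a ≤ b) : r ^ a ≤ r ^ b := zpow_le_zpow_right₀ (by linarith) h

theorem pw_two (a : ℤ) : 2 * r ^ a ≤ r ^ (a + 1) := by
  rw [zpow_add_one₀ (by positivity), mul_comm]
  exact mul_le_mul_of_nonneg_left hr (by positivity)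

theorem pw_nat (n : ℕ) : (2 : ℝ) ^ n ≤ r ^ (n : ℤ) := by
  rw [zpow_natCast]
  exact pow_le_pow_left₀ (by norm_num) hr n

end

def J (r : ℝ) (x y : ZwrZ) (h : ℤ) : Prop := lev x ≤ h ∧ lev y ≤ h ∧ N r (fn y - fn x) ≤ r ^ h

theorem J_ex {r : ℝ} (hr : 2 ≤ r) (x y : ZwrZ) : ∃ k, J r x y k ∧ ∀ k', J r x y k' → k ≤ k' := by
  apply Int.exists_least_of_bdd
  · exact ⟨lev x, fun k h => h.1⟩
  · obtain ⟨n, hn⟩ := pow_unbounded_of_one_lt (N r (fn y - fn x)) (one_lt_two (α := ℝ))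
    refine ⟨max n (max (lev x) (lev y)), by omega, by omega, ?_⟩
    exact hn.le.trans ((pw_nat hr n).trans (pw_mono hr (le_max_left _ _)))

open Classical in
noncomputable def ht (r : ℝ) (x y : ZwrZ) : ℤ := if h : 2 ≤ r then (J_ex h x y).choose else 0

def XX (r : ℝ) : Set ZwrZ := {g | (lev g = 0 ∧ N r (fn g) ≤ 1) ∨ g = mk 0 1}

section
variable {r : ℝ} (hr : 2 ≤ r)
include hr

theorem ht_le {x y : ZwrZ} {k : ℤ} : ht r x y ≤ k ↔ J r x y k := by
  unfold ht
  rw [dif_pos hr]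
  obtain ⟨⟨a, b, c⟩, d⟩ := (J_ex hr x y).choose_spec
  exact ⟨fun h => ⟨a.trans h, b.trans h, c.trans (pw_mono hr h)⟩, d k⟩

theorem ht_J (x y : ZwrZ) : J r x y (ht r x y) := (ht_le hr).mp le_rfl

theorem ht_comm (x y : ZwrZ) : ht r x y = ht r y x := by
  have k : ∀ x y : ZwrZ, ht r x y ≤ ht r y x := fun x y => by
    obtain ⟨a, b, c⟩ := ht_J hr y x
    exact (ht_le hr).mpr ⟨b, a, by rwa [← N_neg hr, neg_sub]⟩
  exact le_antisymm (k x y) (k y x)

theorem ht_tri (x y z : ZwrZ) : ht r x z ≤ max (ht r x y) (ht r y z) + 1 := by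
  obtain ⟨a, b, c⟩ := (ht_le hr).mp (le_max_left (ht r x y) (ht r y z))
  obtain ⟨d, e, f⟩ := (ht_le hr).mp (le_max_right (ht r x y) (ht r y z))
  refine (ht_le hr).mpr ⟨by omega, by omega, ?_⟩
  have := N_add hr (fn z - fn y) (fn y - fn x)
  rw [sub_add_sub_cancel] at this
  linarith [pw_two hr (max (ht r x y) (ht r y z))]

theorem ht_mul (g x y : ZwrZ) : ht r (g * x) (g * y) = ht r x y + lev g := by
  have k : ∀ g x y : ZwrZ, ht r (g * x) (g * y) ≤ ht r x y + lev g := fun g x y => by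
    obtain ⟨a, b, c⟩ := ht_J hr x y
    refine (ht_le hr).mpr ⟨by rw [lev_mul]; omega, by rw [lev_mul]; omega, ?_⟩
    have e : fn (g * y) - fn (g * x) = sh (-lev g) (fn y - fn x) := by
      rw [fn_mul, fn_mul]
      ext i
      simp [sh]
    rw [e, N_sh hr, neg_neg, zpow_add₀ (by positivity), mul_comm]
    exact mul_le_mul_of_nonneg_right c (by positivity)
  have a := k g x y
  have b := k g⁻¹ (g * x) (g * y)
  rw [inv_mul_cancel_left, inv_mul_cancel_left, lev_inv] at b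
  omega

omit hr in
theorem t_pow (n : ℕ) : mk 0 1 ^ n = mk 0 n := by
  induction n with
  | zero => rfl
  | succ n ih =>
    rw [pow_succ, ih]
    apply wext
    · rw [fn_mul, fn_mk, fn_mk, fn_mk, sh_zero, add_zero]
    · rw [lev_mul, lev_mk, lev_mk, lev_mk]
      push_cast
      rfl

theorem X_pow (g : ZwrZ) :
    g ∈ (XX r ∪ (XX r)⁻¹) ^ ((ht r 1 g).toNat + 1 + (ht r 1 g - lev g).toNat) := by
  obtain ⟨a, b, c⟩ := ht_J hr 1 g
  rw [lev_one] at a
  rw [fn_one, sub_zero] at c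
  have e : g = mk 0 1 ^ (ht r 1 g).toNat * mk (sh (ht r 1 g) (fn g)) 0 *
      (mk 0 1)⁻¹ ^ (ht r 1 g - lev g).toNat := by
    rw [inv_pow, eq_mul_inv_iff_mul_eq, t_pow, t_pow]
    apply wext
    · simp only [fn_mul, fn_mk, lev_mk, sh_zero, sh_sh, add_zero, zero_add]
      rw [Int.toNat_of_nonneg a, neg_add_cancel, sh0]
    · simp only [lev_mul, lev_mk]
      omega
  rw [pow_add, pow_add, pow_one]
  have m1 : mk 0 1 ∈ XX r ∪ (XX r)⁻¹ := Or.inl (Or.inr rfl)
  have m2 : (mk 0 1)⁻¹ ∈ XX r ∪ (XX r)⁻¹ := Or.inr (Set.inv_mem_inv.mpr (Or.inr rfl))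
  have m3 : mk (sh (ht r 1 g) (fn g)) 0 ∈ XX r ∪ (XX r)⁻¹ := by
    refine Or.inl (Or.inl ⟨lev_mk _ _, ?_⟩)
    rw [fn_mk, N_sh hr, zpow_neg, inv_mul_le_iff₀ (by positivity), mul_one]
    exact c
  have m4 := Set.mul_mem_mul (Set.mul_mem_mul (Set.pow_mem_pow (n := (ht r 1 g).toNat) m1) m3)
    (Set.pow_mem_pow (n := (ht r 1 g - lev g).toNat) m2)
  rwa [← e] at m4

theorem X_gen : Subgroup.closure (XX r) = ⊤ := by
  rw [eq_top_iff]
  intro g _
  have h := X_pow hr g
  generalize (ht r 1 g).toNat + 1 + (ht r 1 g - lev g).toNat = n at h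
  induction n generalizing g with
  | zero =>
    rw [pow_zero, Set.mem_one] at h
    rw [h]
    exact one_mem _
  | succ n ih =>
    rw [pow_succ'] at h
    obtain ⟨a, ha, b, hb, rfl⟩ := h
    refine mul_mem ?_ (ih (Subgroup.mem_top b) hb)
    rcases ha with ha | ha
    · exact Subgroup.subset_closure ha
    · exact (Subgroup.inv_mem_iff _).mp (Subgroup.subset_closure ha)

theorem X_low (n : ℕ) (g : ZwrZ) (h : g ∈ (XX r ∪ (XX r)⁻¹) ^ n) :
    ∃ (j : ℤ) (m : ℕ), 0 ≤ j ∧ lev g ≤ j ∧ N r (fn g) ≤ m * r ^ j ∧ m + 2 * j - lev g ≤ n := by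
  induction n generalizing g with
  | zero =>
    rw [pow_zero, Set.mem_one] at h
    subst h
    exact ⟨0, 0, le_rfl, le_rfl, by simp [fn_one, N_zero], by simp [lev_one]⟩
  | succ n ih =>
    rw [pow_succ] at h
    obtain ⟨g, hg, a, ha, rfl⟩ := h
    obtain ⟨j, m, h1, h2, h3, h4⟩ := ih g hg
    have k1 : ∀ a : ZwrZ, lev a = 0 → N r (fn a) ≤ 1 → ∃ (j : ℤ) (m : ℕ), 0 ≤ j ∧ lev (g * a) ≤ j ∧
        N r (fn (g * a)) ≤ m * r ^ j ∧ m + 2 * j - lev (g * a) ≤ (n + 1 : ℕ) := by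
      intro a e1 e2
      refine ⟨j, m + 1, h1, by rw [lev_mul]; omega, ?_, by rw [lev_mul]; push_cast; omega⟩
      rw [fn_mul]
      have a1 := N_add hr (fn g) (sh (-lev g) (fn a))
      rw [N_sh hr, neg_neg] at a1
      have a2 := pw_mono hr h2
      have a3 : r ^ lev g * N r (fn a) ≤ r ^ lev g * 1 :=
        mul_le_mul_of_nonneg_left e2 (by positivity)
      push_cast
      linarith
    have k2 : ∀ a : ZwrZ, fn a = 0 → fn (g * a) = fn g := fun a e => by
      rw [fn_mul, e, sh_zero, add_zero]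
    rcases ha with (ha | ha) | (ha | ha)
    · exact k1 a ha.1 ha.2
    · subst ha
      simp only [k2 _ (fn_mk 0 1), lev_mul, lev_mk]
      by_cases hj : lev g + 1 ≤ j
      · exact ⟨j, m, h1, hj, h3, by push_cast; omega⟩
      · refine ⟨j + 1, m, by omega, by omega, h3.trans ?_, by push_cast; omega⟩
        exact mul_le_mul_of_nonneg_left (pw_mono hr (by omega)) (by positivity)
    · have e1 : lev a = 0 := by
        have := lev_inv a
        omega
      refine k1 a e1 ?_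
      have := fn_mul a⁻¹ a
      rw [inv_mul_cancel, fn_one, ha.1, neg_zero, sh0, eq_comm, add_eq_zero_iff_neg_eq] at this
      rw [← this, N_neg hr]
      exact ha.2
    · have e1 : lev a = -1 := by
        have := lev_inv a
        rw [ha, lev_mk] at this
        omega
      have e2 : fn a = 0 := by
        have := fn_mul a a⁻¹
        rw [mul_inv_cancel, fn_one, ha, fn_mk, sh_zero, add_zero] at this
        exact this.symm
      simp only [k2 _ e2, lev_mul, e1]
      exact ⟨j, m, h1, by omega, h3, by push_cast; omega⟩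

theorem len_mem (g : ZwrZ) : g ∈ (XX r ∪ (XX r)⁻¹) ^ (len (XX r) g) :=
  (MP_98b561_al.isLen_word _ (X_gen hr)).2 g

theorem len_up (g : ZwrZ) : (len (XX r) g : ℤ) ≤ 2 * ht r 1 g - lev g + 1 := by
  have h : len (XX r) g ≤ _ := Nat.sInf_le (X_pow hr g)
  obtain ⟨a, b, -⟩ := ht_J hr 1 g
  rw [lev_one] at a
  omega

theorem len_low (g : ZwrZ) : 2 * ht r 1 g - lev g - 1 ≤ len (XX r) g := by
  obtain ⟨j, m, h1, h2, h3, h4⟩ := X_low hr _ g (len_mem hr g)
  have k : ∀ m : ℕ, m ≤ 2 ^ ((m + 1) / 2) := by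
    intro m
    induction m using Nat.strong_induction_on with
    | _ m ih =>
      rcases m with _ | _ | _ | m
      · simp
      · simp
      · simp
      · have := ih (m + 1) (by omega)
        have e : (m + 1 + 1 + 1 + 1) / 2 = (m + 1 + 1) / 2 + 1 := by omega
        have e2 : 2 ≤ 2 ^ ((m + 1 + 1) / 2) := by
          have e3 : (m + 1 + 1) / 2 = m / 2 + 1 := by omega
          rw [e3, pow_succ]
          have := Nat.one_le_two_pow (n := m / 2)
          omega
        rw [e, pow_succ]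
        omega
  have h5 : ht r 1 g ≤ ((m + 1) / 2 : ℕ) + j := by
    refine (ht_le hr).mpr ⟨by rw [lev_one]; omega, by omega, ?_⟩
    rw [fn_one, sub_zero, zpow_add₀ (by positivity)]
    refine h3.trans (mul_le_mul_of_nonneg_right (le_trans ?_ (pw_nat hr _)) (by positivity))
    exact_mod_cast k m
  omega

theorem len_lev (g : ZwrZ) : lev g ≤ len (XX r) g := by
  obtain ⟨j, m, h1, h2, h3, h4⟩ := X_low hr _ g (len_mem hr g)
  omega

end

noncomputable def tp (r : ℝ) (x y : ZwrZ) : ℤ := ht r 1 x + ht r 1 y - ht r x y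

section
variable {r : ℝ} (hr : 2 ≤ r)
include hr

theorem gp_tp (a b : ZwrZ) : (tp r a b : ℝ) - 2 ≤ gp (XX r) a b ∧ gp (XX r) a b ≤ tp r a b + 2 := by
  have a1 := len_low hr a
  have a2 := len_up hr a
  have b1 := len_low hr b
  have b2 := len_up hr b
  have c1 := len_low hr (a⁻¹ * b)
  have c2 := len_up hr (a⁻¹ * b)
  have d := ht_mul hr a 1 (a⁻¹ * b)
  rw [mul_one, mul_inv_cancel_left] at d
  rw [lev_mul, lev_inv] at c1 c2
  have h1 : 2 * tp r a b - 4 ≤ (len (XX r) a : ℤ) + len (XX r) b - len (XX r) (a⁻¹ * b) := by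
    unfold tp
    omega
  have h2 : (len (XX r) a : ℤ) + len (XX r) b - len (XX r) (a⁻¹ * b) ≤ 2 * tp r a b + 4 := by
    unfold tp
    omega
  have h1' : 2 * (tp r a b : ℝ) - 4 ≤ (len (XX r) a : ℝ) + len (XX r) b - len (XX r) (a⁻¹ * b) := by
    exact_mod_cast h1
  have h2' : (len (XX r) a : ℝ) + len (XX r) b - len (XX r) (a⁻¹ * b) ≤ 2 * (tp r a b : ℝ) + 4 := by
    exact_mod_cast h2
  unfold gp
  constructor <;> linarith

theorem tp_hyp (x y z : ZwrZ) : tp r x y ≤ tp r x z + 3 ∨ tp r y z ≤ tp r x z + 3 := by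
  have a1 := ht_tri hr x y z
  have a2 := ht_tri hr 1 y x
  have a3 := ht_tri hr 1 x y
  have a4 := ht_tri hr x 1 y
  have a5 := ht_tri hr 1 y z
  have a6 := ht_tri hr 1 z y
  have a7 := ht_tri hr y 1 z
  have a8 := ht_tri hr 1 x z
  have a9 := ht_tri hr 1 z x
  have a10 := ht_tri hr x 1 z
  have a11 := ht_tri hr x z y
  have a12 := ht_tri hr y x z
  rw [ht_comm hr y x] at a2 a12
  rw [ht_comm hr x 1] at a4 a10
  rw [ht_comm hr z y] at a6 a11
  rw [ht_comm hr y 1] at a7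
  rw [ht_comm hr z x] at a9
  unfold tp
  omega

theorem same_of (x y : ℕ → ZwrZ) (c : ℤ) (h : ∀ n m : ℕ, min (n : ℤ) m - c ≤ tp r (x n) (y m)) :
    Same (XX r) x y := by
  refine tendsto_atTop.mpr (fun K => ?_)
  obtain ⟨M, hM⟩ := exists_nat_ge (K + c + 2)
  filter_upwards [eventually_ge_atTop (M, M)] with q hq
  have a := (gp_tp hr (x q.1) (y q.2)).1
  have b := h q.1 q.2
  have c1 : M ≤ q.1 := hq.1
  have c2 : M ≤ q.2 := hq.2
  have d : (M : ℤ) - c ≤ tp r (x q.1) (y q.2) := by omega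
  have d' : (M : ℝ) - c ≤ tp r (x q.1) (y q.2) := by exact_mod_cast d
  linarith

theorem qp : QP (XX r) := by
  refine ⟨X_gen hr, ⟨7, fun x y z => ?_⟩, ⟨mk 0 1, 1, one_pos, fun n => ?_⟩,
    ⟨fun n => mk 0 n, ?_⟩, ⟨fun i n => mk (Finsupp.single 0 i) (-n), fun i => ?_, fun i j hij => ?_⟩⟩
  · have a := (gp_tp hr x y).2
    have b := (gp_tp hr y z).2
    have c := (gp_tp hr x z).1
    have m1 := min_le_left (gp (XX r) x y) (gp (XX r) y z)
    have m2 := min_le_right (gp (XX r) x y) (gp (XX r) y z)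
    rcases tp_hyp hr x y z with h | h
    · have : (tp r x y : ℝ) ≤ tp r x z + 3 := by exact_mod_cast h
      linarith
    · have : (tp r y z : ℝ) ≤ tp r x z + 3 := by exact_mod_cast h
      linarith
  · have := len_lev hr (mk 0 1 ^ n)
    rw [one_mul]
    rw [t_pow, lev_mk, ← t_pow] at this
    exact_mod_cast this
  · have k : ∀ g : ZwrZ, Same (XX r) (fun n => g * mk 0 n) (fun n => mk 0 n) := fun g =>
      same_of hr _ _ (|lev g| + 1) (fun n m => by
        have a := ht_tri hr (g * mk 0 n) 1 (mk 0 m)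
        rw [ht_comm hr _ 1] at a
        have b := (ht_J hr 1 (g * mk 0 n)).2.1
        have c := (ht_J hr 1 (mk 0 m)).2.1
        rw [lev_mul] at b
        rw [lev_mk] at b c
        have d := neg_abs_le (lev g)
        have e := abs_nonneg (lev g)
        unfold tp
        omega)
    exact ⟨by simpa using k 1, k⟩
  · refine same_of hr _ _ 0 (fun n m => ?_)
    have a := (ht_J hr 1 (mk (Finsupp.single 0 i) (-n))).1
    have b := (ht_J hr 1 (mk (Finsupp.single 0 i) (-m))).1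
    have c : ht r (mk (Finsupp.single 0 i) (-n)) (mk (Finsupp.single 0 i) (-m)) ≤ max (-(n : ℤ)) (-m) :=
      (ht_le hr).mpr ⟨by rw [lev_mk]; omega, by rw [lev_mk]; omega, by
        rw [fn_mk, fn_mk, sub_self, N_zero]
        positivity⟩
    rw [lev_one] at a b
    simp only [tp]
    omega
  · intro hs
    obtain ⟨q, hq⟩ := (tendsto_atTop.mp hs (i + j + 3)).exists
    have k : ∀ i n : ℕ, ht r 1 (mk (Finsupp.single 0 i) (-n)) ≤ i := fun i n =>
      (ht_le hr).mpr ⟨by rw [lev_one]; omega, by rw [lev_mk]; omega, by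
        rw [fn_mk, fn_one, sub_zero, N_single]
        refine le_trans ?_ (pw_nat hr i)
        have : i ≤ 2 ^ i := Nat.lt_two_pow_self.le
        simp only [Int.cast_natCast, Nat.abs_cast, neg_zero, zpow_zero, mul_one]
        exact_mod_cast this⟩
    have a := k i q.1
    have b := k j q.2
    have c : ¬ ht r (mk (Finsupp.single 0 i) (-q.1)) (mk (Finsupp.single 0 j) (-q.2)) ≤ -1 := by
      intro h
      have h2 := ((ht_le hr).mp h).2.2
      rw [fn_mk, fn_mk, ← Finsupp.single_sub, N_single] at h2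
      have h3 := pw_two hr (-1)
      have h4 : (1 : ℝ) ≤ |(((j : ℤ) - i : ℤ) : ℝ)| := by
        rw [← Int.cast_abs]
        exact_mod_cast Int.one_le_abs (show (j : ℤ) - i ≠ 0 by omega)
      simp only [neg_zero, zpow_zero, mul_one, neg_add_cancel] at h2 h3
      linarith
    have d := (gp_tp hr (mk (Finsupp.single 0 i) (-q.1)) (mk (Finsupp.single 0 j) (-q.2))).2
    have e : tp r (mk (Finsupp.single 0 i) (-q.1)) (mk (Finsupp.single 0 j) (-q.2)) ≤ i + j := by
      unfold tp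
      omega
    have e' : (tp r (mk (Finsupp.single 0 i) (-q.1)) (mk (Finsupp.single 0 j) (-q.2)) : ℝ) ≤
      i + j := by exact_mod_cast e
    linarith

theorem le_of {r' : ℝ} (h : r ≤ r') : Le (XX r') (XX r) := by
  have hr' : 2 ≤ r' := hr.trans h
  refine ⟨1, fun y hy => Nat.sInf_le ?_⟩
  rw [Set.mem_setOf_eq, pow_one]
  left
  rcases hy with ⟨a, b⟩ | a
  · refine Or.inl ⟨a, le_trans ?_ b⟩
    refine Finset.sum_le_sum (fun i hi => mul_le_mul_of_nonneg_left ?_ (abs_nonneg _))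
    have h1 : 0 ≤ i := by
      by_contra h0
      have h2 : |((fn y i : ℤ) : ℝ)| * r ^ (-i) ≤ N r (fn y) :=
        Finset.single_le_sum (f := fun i => |((fn y i : ℤ) : ℝ)| * r ^ (-i))
          (fun _ _ => by positivity) hi
      have h3 : (1 : ℝ) ≤ |((fn y i : ℤ) : ℝ)| := by
        rw [← Int.cast_abs]
        exact_mod_cast Int.one_le_abs (Finsupp.mem_support_iff.mp hi)
      have h4 := pw_mono hr (show (1 : ℤ) ≤ -i by omega)
      rw [zpow_one] at h4
      nlinarith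
    rw [zpow_neg, zpow_neg]
    exact inv_anti₀ (by positivity) (zpow_le_zpow_left₀ h1 (by positivity) h)
  · exact Or.inr a

theorem not_le_of {r' : ℝ} (h : r < r') : ¬ Le (XX r) (XX r') := by
  have hr' : 2 ≤ r' := hr.trans h.le
  rintro ⟨C, hC⟩
  obtain ⟨i, hi⟩ := pow_unbounded_of_one_lt (r ^ (C + 1 : ℤ) + 1)
    ((one_lt_div (by positivity : 0 < r)).mpr h)
  have p1 : 0 < r ^ i := by positivity
  have p2 : 0 < r' ^ i := by positivity
  have f1 := Int.floor_le (r' ^ i)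
  have f2 := Int.lt_floor_add_one (r' ^ i)
  have f3 : (0 : ℝ) ≤ (⌊r' ^ i⌋ : ℤ) := by exact_mod_cast Int.floor_nonneg.mpr p2.le
  have a := hC (mk (Finsupp.single i ⌊r' ^ i⌋) 0) (Or.inl ⟨lev_mk _ _, by
    rw [fn_mk, N_single, abs_of_nonneg f3, zpow_neg, zpow_natCast, mul_inv_le_iff₀ p2, one_mul]
    exact f1⟩)
  have b := len_low hr (mk (Finsupp.single i ⌊r' ^ i⌋) 0)
  have c := (ht_J hr 1 (mk (Finsupp.single i ⌊r' ^ i⌋) 0)).1
  rw [lev_mk] at b
  rw [lev_one] at c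
  have d := ((ht_le hr).mp (show ht r 1 (mk (Finsupp.single i ⌊r' ^ i⌋) 0) ≤ C + 1 by omega)).2.2
  rw [fn_mk, fn_one, sub_zero, N_single, abs_of_nonneg f3, zpow_neg, zpow_natCast,
    mul_inv_le_iff₀ p1] at d
  rw [div_pow, lt_div_iff₀ p1] at hi
  have e : 1 ≤ r ^ i := one_le_pow₀ (by linarith)
  nlinarith

end

end Pool.Agent.H.MP_6b630c_al
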