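import Mathlib

set_option autoImplicit false

namespace Pool.Agent.H.MP_6b630c_al
open Pointwise Filter

/-- the shift of coordinates by `k` -/
noncomputable def shift : Multiplicative ℤ →* MulAut (Multiplicative (ℤ →₀ ℤ)) where
  toFun k := AddEquiv.toMultiplicative (Finsupp.domCongr (Equiv.addRight k.toAdd))
  map_one' := by
    ext f i
    simp [-Equiv.addRight_zero]
  map_mul' a b := by
    ext f i
    simp [-Equiv.addRight_add, add_assoc, add_comm, add_left_comm]

/-- the restricted wreath product of the integers by the integers -/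
abbrev ZwrZ : Type := Multiplicative (ℤ →₀ ℤ) ⋊[shift] Multiplicative ℤ

variable {G : Type} [Group G]

/-- word length -/
noncomputable def len (X : Set G) (g : G) : ℕ := sInf {n : ℕ | g ∈ (X ∪ X⁻¹) ^ n}

/-- Gromov product based at the identity -/
noncomputable def gp (X : Set G) (a b : G) : ℝ :=
  ((len X a : ℝ) + (len X b : ℝ) - (len X (a⁻¹ * b) : ℝ)) / 2

/-- the Gromov products of the two sequences tend to infinity -/
def Same (X : Set G) (x y : ℕ → G) : Prop :=
  Tendsto (fun q : ℕ × ℕ => gp X (x q.1) (y q.2)) atTop atTop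

/-- `X` generates, the Cayley graph is hyperbolic and the action on it is quasi-parabolic -/
def QP (X : Set G) : Prop :=
  Subgroup.closure X = ⊤ ∧
  (∃ δ : ℝ, ∀ x y z : G, min (gp X x y) (gp X y z) - δ ≤ gp X x z) ∧
  (∃ (g : G) (c : ℝ), 0 < c ∧ ∀ n : ℕ, c * n ≤ len X (g ^ n)) ∧
  (∃ x : ℕ → G, Same X x x ∧ ∀ g : G, Same X (fun n => g * x n) x) ∧
  (∃ y : ℕ → ℕ → G, (∀ i, Same X (y i) (y i)) ∧ ∀ i j, i ≠ j → ¬ Same X (y i) (y j))

/-- the preorder on generating sets -/
def Le (X Y : Set G) : Prop := ∃ C : ℕ, ∀ y ∈ Y, len X y ≤ C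

end Pool.Agent.H.MP_6b630c_al
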